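import Pool.Agent.Helper57.THA.St
import Pool.Agent.Helper79.LBR.Top

/-! [LBR] boxes with flat lower coordinates: membership and fullness, one polynomial of jets of the next coordinate for
all scales. -/

set_option autoImplicit false
set_option linter.unusedSectionVars false

namespace Pool.Agent.Helper79.THA

open Finset Filter Topology Pool.Agent.Helper69.RK Pool.Agent.Helper31.EC Pool.Agent.Helper31.EC.Sp
open Pool.Agent.Helper31.EC.QS Pool.Agent.Helper57.TA Pool.Agent.Helper13.AM Pool.Agent.Helper57.THA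
open Pool.Agent.Helper79.WLK (LB LR sh)
open Pool.Agent.Helper79.LBR (WS)
open Pool.Agent.Helper14.WLK (LG CS CS_C CS_X CS_aeval LG_know)

noncomputable section

variable {S : Sp} {d N r : ℕ} {c : CD S d N r} {w : Fin N → ℝ} {z : Fin N} {ρ : ℝ} {s : ℝ} {H : HH S d N}

theorem coeff_h0 {A : Type*} [CommRing A] {β κ : Type*} (P : MvPolynomial (β ⊕ κ) A) (n : β →₀ ℕ) :
    (h0 P).coeff n = P.coeff (n.mapDomain Sum.inl) := by
  classical
  induction P using MvPolynomial.induction_on' with
  | monomial u a =>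
    by_cases hu : ∃ v : β →₀ ℕ, v.mapDomain Sum.inl = u
    · obtain ⟨v, rfl⟩ := hu
      have h1 : (MvPolynomial.monomial (v.mapDomain Sum.inl) a : MvPolynomial (β ⊕ κ) A) =
          MvPolynomial.rename Sum.inl (MvPolynomial.monomial v a) := by
        rw [MvPolynomial.rename_monomial]
      rw [h1]
      unfold h0
      rw [MvPolynomial.aeval_rename]
      have h2 : (Sum.elim MvPolynomial.X (fun _ => 0) : β ⊕ κ → MvPolynomial β A) ∘ Sum.inl = MvPolynomial.X := rfl
      rw [h2, MvPolynomial.aeval_X_left, AlgHom.id_apply, MvPolynomial.coeff_rename_mapDomain _ Sum.inl_injective]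
    · have h1 : ∃ k : κ, u (Sum.inr k) ≠ 0 := by
        by_contra hc
        push Not at hc
        apply hu
        refine ⟨u.comapDomain Sum.inl Sum.inl_injective.injOn, ?_⟩
        ext a
        rcases a with a | k
        · rw [Finsupp.mapDomain_apply Sum.inl_injective, Finsupp.comapDomain_apply]
        · rw [hc k, Finsupp.mapDomain_of_notMem_range]
          rintro ⟨b, hb⟩
          exact Sum.inl_ne_inr hb
      obtain ⟨k, hk⟩ := h1
      have h2 : h0 (MvPolynomial.monomial u a : MvPolynomial (β ⊕ κ) A) = 0 := by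
        unfold h0
        rw [MvPolynomial.aeval_monomial]
        have h3 : (u.prod fun i e => (Sum.elim MvPolynomial.X (fun _ => 0) : β ⊕ κ → MvPolynomial β A) i ^ e) = 0 := by
          unfold Finsupp.prod
          apply Finset.prod_eq_zero (Finsupp.mem_support_iff.mpr hk)
          show (0 : MvPolynomial β A) ^ u (Sum.inr k) = 0
          rw [zero_pow hk]
        rw [h3, mul_zero]
      rw [h2, MvPolynomial.coeff_zero, MvPolynomial.coeff_monomial, if_neg]
      intro hc
      exact hu ⟨n, hc.symm⟩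
  | add p q hp hq =>
    have h1 : h0 (p + q) = h0 p + h0 q := by
      unfold h0
      rw [map_add]
    rw [h1, MvPolynomial.coeff_add, MvPolynomial.coeff_add, hp, hq]

/-- the frame of the changed coordinate -/
theorem eval_Ph (hb : c.Bx w z) (hs : 0 ≤ s) (hs1 : w z * s ≤ 1) (j : Fin N) :
    c.cR H j = MvPolynomial.eval (Sum.elim (dq c s) (c.γ s)) (Ph c H s j) + c.γ s j := by
  have hR : ∀ l, c.R l = MvPolynomial.eval (Sum.elim (dq c s) (c.γ s)) (c.F s l) + c.γ s l :=
    fun l => hb.fR s hs hs1 l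
  unfold Ph
  rw [map_sub, eval_sbs]
  have h1 : (fun i => MvPolynomial.eval (Sum.elim (dq c s) (c.γ s))
      ((Sum.elim (fun a => MvPolynomial.C (c.q0 s a) + MvPolynomial.X (Sum.inl a))
        (fun l => c.F s l + MvPolynomial.X (Sum.inr l)) :
          Fin (d + 1) ⊕ Fin N → MvPolynomial (Fin (d + 1) ⊕ Fin N) (QS S)) i)) = c.pt := by
    funext i
    rcases i with a | l
    · rw [Sum.elim_inl, map_add, MvPolynomial.eval_C, MvPolynomial.eval_X, Sum.elim_inl]
      unfold dq
      show _ = c.q a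
      ring
    · rw [Sum.elim_inr, map_add, MvPolynomial.eval_X, Sum.elim_inr]
      exact (hR l).symm
  rw [h1]
  unfold CD.cR
  rw [hR j]
  ring

theorem Ph_PK (hA : c.Ax w z ρ) (hH : ∀ k, H k ∈ PK ⊥) (j : Fin N) :
    Ph c H s j ∈ PK (c.K s) := by
  have hF : ∀ l, c.F s l ∈ PK (c.K s) := Pool.Agent.Helper79.HLD.F_le hA.bx s
  refine (PK _).sub_mem (hF j) (sbs_PK (PK_mono bot_le (hH j)) ?_)
  rintro (a | l)
  · exact (PK _).add_mem (C_mem (Pool.Agent.Helper79.HLD.q0_le hA.bx s a)) (X_mem _ _)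
  · exact (PK _).add_mem (hF l) (X_mem _ _)

theorem h0_PK {A : S.L} {β κ : Type} {P : MvPolynomial (β ⊕ κ) (QS S)} (hP : P ∈ PK A) : h0 P ∈ PK A := by
  intro n
  rw [coeff_h0]
  exact hP _

/-- the frame form gives the form with an arbitrary horizontal function -/
theorem unt_of_UntF (hA : c.Ax w z ρ) (hs : 0 ≤ s) (hs1 : w z * s ≤ 1) (hH : ∀ k, H k ∈ PK ⊥)
    {Jh : MvPolynomial (Fin (d + 1)) (QS S)} {j : Fin N} (hU : UntF w c H Jh s j) : UntE w c H Jh s j := by
  classical
  obtain ⟨h1, h2⟩ := hU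
  refine ⟨h0 (Ph c H s j), h0_PK (Ph_PK hA hH j), ?_, h2⟩
  have hws : WS (Sum.elim (fun _ => 1) w : Fin (d + 1) ⊕ Fin N → ℝ) s (w j * s)
      (Ph c H s j - MvPolynomial.rename Sum.inl (h0 (Ph c H s j))) := by
    intro m
    by_cases hm : ∃ l, m (Sum.inr l) ≠ 0
    · have h3 : (MvPolynomial.rename Sum.inl (h0 (Ph c H s j)) :
          MvPolynomial (Fin (d + 1) ⊕ Fin N) (QS S)).coeff m = 0 := by
        apply MvPolynomial.coeff_rename_eq_zero
        intro n hn
        obtain ⟨l, hl⟩ := hm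
        exfalso
        apply hl
        rw [← hn, Finsupp.mapDomain_of_notMem_range]
        rintro ⟨b, hb⟩
        exact Sum.inl_ne_inr hb
      rw [MvPolynomial.coeff_sub, h3, sub_zero, ← sub_mul]
      exact h1 m hm
    · push Not at hm
      have h3 : (m.comapDomain Sum.inl Sum.inl_injective.injOn).mapDomain Sum.inl = m := by
        ext a
        rcases a with a | k
        · rw [Finsupp.mapDomain_apply Sum.inl_injective, Finsupp.comapDomain_apply]
        · rw [hm k, Finsupp.mapDomain_of_notMem_range]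
          rintro ⟨b, hb⟩
          exact Sum.inl_ne_inr hb
      rw [← h3, MvPolynomial.coeff_sub, MvPolynomial.coeff_rename_mapDomain _ Sum.inl_injective, coeff_h0, sub_self]
      exact Ideal.zero_mem _
  have h3 := hws.eval (x := Sum.elim (dq c s) (c.γ s)) (by
    rintro (a | l)
    · show dq c s a ∈ Id S (1 * s)
      rw [one_mul]
      exact hA.bx.fq s hs hs1 a
    · exact hA.bx.fγ s hs hs1 l)
  have h4 := Ideal.add_mem _ h3 (hA.bx.fγ s hs hs1 j)
  refine (congrArg (· ∈ Id S (w j * s)) ?_).mp h4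
  rw [eval_Ph hA.bx hs hs1 j, map_sub, MvPolynomial.eval_rename]
  have e2 : (Sum.elim (dq c s) (c.γ s)) ∘ Sum.inl = dq c s := rfl
  rw [e2]
  ring

theorem unt_of_UntE {Jh : Fin N → MvPolynomial (Fin (d + 1)) (QS S)} {k : Fin N} (hU : UntE w c H (Jh k) s k) :
    Pool.Agent.Helper79.LBR.Unt c H Jh w k s := by
  obtain ⟨Psi, h1, h2, h3⟩ := hU
  refine ⟨Psi, h1, h2, fun n hn => ?_⟩
  rw [MvPolynomial.coeff_sub, ← sub_mul]
  exact h3 n hn

/-- [LBR] -/
theorem st_LBR : ST_LBR := by
  intro S d N r c w z ρ hA H hH Jh j s₀ hs0 hs1 hJk hJw hU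
  have hwz : 0 ≤ w z := (zero_lt_one.trans (hA.w1 z)).le
  have hss : ∀ s, s ≤ s₀ → w z * s ≤ 1 := fun s hs => (mul_le_mul_of_nonneg_left hs hwz).trans hs1.le
  obtain ⟨J, h1, h2, h3⟩ := Pool.Agent.Helper79.LBR.lbr (Jh := Jh) (j := j) hA hs0.le hs1.le hH.real
    (fun k => hH.low k) (fun k hk => by
      by_contra hc
      exact (hJw ⟨k, hk⟩ 0 hc).1 rfl)
    (fun k hk s hs hs' => unt_of_UntE (unt_of_UntF hA hs (hss s hs') hH.real (hU ⟨k, hk⟩ s hs hs')))
  exact ⟨fun s hs hs' => (h3 s hs hs').1, J, h2 c.O le_rfl fun k => PK_mono le_sup_left (hJk k), h1,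
    fun s hs hs' => (h3 s hs hs').2⟩

end

end Pool.Agent.Helper79.THA
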