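import Pool.Agent.Helper57.THA.St
import Pool.Agent.Helper79.HLD.Co

/-! [HLDj] flat coordinates over deeper lines are flat over the lines of the zoom, coordinate by coordinate. -/

set_option autoImplicit false

namespace Pool.Agent.Helper79.THA

open Pool.Agent.Helper57.THA

/-- [HLDj] -/
theorem st_HLDj : ST_HLDj := by
  intro d N r w z ρ C hC S c hc s e he h1 hs hse Z c' hz hc' κ hκ hκ1
  obtain ⟨κ', h2, h3, h4⟩ := Pool.Agent.Helper79.HLD.st_hld_co d N r w z ρ C hC S c hc s e he h1 hs hse Z c' hz hc'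
    κ hκ hκ1
  exact ⟨κ', h2, h3, fun H hH j hF i => h4 H hH.real i j (hF i)⟩

end Pool.Agent.Helper79.THA
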