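import Pool.Agent.Helper57.THA.St
import Pool.Agent.Helper79.LBR.Top
import Pool.Agent.Helper92.WK.Dcn

/-! WALKS on a zoom from the transports of all types. -/

set_option autoImplicit false
set_option linter.unusedSectionVars false

namespace Pool.Agent.Helper79.THA

open Finset Filter Topology Pool.Agent.Helper69.RK Pool.Agent.Helper31.EC Pool.Agent.Helper31.EC.Sp
open Pool.Agent.Helper31.EC.QS Pool.Agent.Helper57.TA Pool.Agent.Helper13.AM Pool.Agent.Helper57.THA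
open Pool.Agent.Helper79.WLK (LB LR sh EdgD edgD_of_tr walk_of_WI)
open Pool.Agent.Helper79.HLD (zoom_time K_le_O)
open Pool.Agent.Helper79.LBR (vd_gH)
open Pool.Agent.Helper92.WK (WI zoom_ind K_zoom conn_deep O_zoom_le)
open Pool.Agent.Helper14.WLK (Ag LG CS)

noncomputable section

section one

variable {S : Sp} {d N r : ℕ} {c : CD S d N r} {w : Fin N → ℝ} {z : Fin N} {ρ : ℝ}

/-- there are types -/
theorem types_pos (hA : c.Ax w z ρ) : 0 < r := by
  rcases Nat.eq_zero_or_pos r with h0 | h0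
  · exfalso
    subst h0
    have h1 := hA.lb.lab 0 le_rfl (by rw [mul_zero]; exact one_pos) c.O le_rfl fun i => i.elim0
    have h2 := hA.num.hbe 0 le_rfl (by rw [mul_zero]; exact zero_le_one)
    rw [mul_zero] at h2
    have h3 : H c.P = (d : ℝ) + 1 := by
      have h4 := Pool.Agent.Helper79.LBR.H_real hA.ln.real
      rw [Nat.cast_add, Nat.cast_one] at h4
      exact h4
    have h4 : H c.P ≤ H (c.K 0) := H_mono (le_sup_left.trans h1)
    rw [h2, h3] at h4
    have : (0 : ℝ) ≤ d := Nat.cast_nonneg d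
    linarith
  · exact h0

theorem cR_le_O {H : HH S d N} (hH : ∀ j, H j ∈ PK ⊥) (j : Fin N) : dg (c.cR H j) 1 ≤ c.O := by
  show dg (c.R j - MvPolynomial.eval c.pt (H j)) 1 ≤ c.O
  refine (dg_sub_le _ _ le_rfl).trans (sup_le ((dg_le_vd c.R 1 j).trans le_sup_right) ?_)
  refine QS.eval_mem (PK_mono bot_le (hH j)) _ le_rfl ?_
  rintro (a | l)
  · exact (dg_le_vd c.q 1 a).trans le_sup_left
  · exact (dg_le_vd c.R 1 l).trans le_sup_right

end one

section zoom

variable {S : Sp} {d N r : ℕ} {c : CD S d N r} {w : Fin N → ℝ} {z : Fin N} {ρ : ℝ}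
variable {y e : ℝ} {he : 0 < e} {h1 : e ≤ 1} {Z : ∀ k, Setoid (S.F k).Ω} {c' : CD (S.chg Z e he) d N r}

/-- WALKS OF DEEP TYPES with the label of the changed coordinates -/
def wiG (hA : c.Ax w z ρ) (hA' : c'.Ax w z ρ) (hy : 0 ≤ y) (hye : w z * y + e ≤ 1) (hz : c.ZR w z y e he h1 Z c')
    {s : ℝ} (hs : 0 ≤ s) (hs1 : w z * s < 1) (H : HH (S.chg Z e he) d N) (hH : ∀ j, H j ∈ PK ⊥)
    {al : Fin r → ℕ → Type}
    (bV : ∀ i k, ((S.chg Z e he).F k).Ω → al i k) (hb : ∀ i, Bdd (S := S.chg Z e he) (bV i))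
    (hbV : ∀ i, io (S := S.chg Z e he) (bV i) = chgL Z e he (c.b i)) {ο : Type} [Fintype ο]
    (o : ο → QS (S.chg Z e he)) (ho : vd o 1 ≤ c'.O) (hoq : ∀ a, ∃ i, c'.q a = o i) {φ : Fin r → Type}
    [∀ i, Fintype (φ i)] (F : ∀ i, φ i → QS (S.chg Z e he)) (hF : ∀ i, vd (F i) 1 ≤ chgL Z e he (c.xi i)) :
    WI (S.chg Z e he) (Fin r) (Fin (d + 1))
      (Fin (c'.m s) ⊕ (Σ j : Fin N, {m // m ∈ (H j).support})) ο φ where
  al := al
  bV := bV
  bdd := hb
  F := F
  g := gH c' H s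
  o := o
  q := c'.q
  t := c'.q 0
  s := s
  s1 := by
    have h1 := hA.w1 z
    nlinarith
  qo := hoq
  tq := dg_le_vd c'.q 1 0
  qb := by
    intro i
    rw [hbV i]
    exact (CD.Ln.P_le hA'.ln i).trans (sup_le_sup_right (hz.b i) _)
  ind := by
    intro i
    rw [hbV i]
    have hK : vd (gH c' H s) 1 ≤ c'.O := by
      have h2 : vd (gH c' H s) 1 = c'.K s := vd_gH hA'.bx hs hs1.le hH
      rw [h2]
      exact K_le_O hA' hs hs1.le
    exact I_zero_mono (zoom_ind hA hy hye hz hA' i) le_sup_left ((sup_le ho hK).trans le_sup_left)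
  treal := by
    intro i
    have hs1' : s ≤ 1 := by
      have h1 := hA.w1 z
      nlinarith
    have hX : io (S := S.chg Z e he) (bV i) ⊔ (vd (F i) 1 ⊔ vd (gH c' H s) 1) ≤
        chgL Z e he (c.xi i) ⊔ dg (c'.q 0) s := by
      have h2 : vd (gH c' H s) 1 = c'.K s := vd_gH hA'.bx hs hs1.le hH
      rw [hbV i, h2]
      refine sup_le ?_ (sup_le ?_ ?_)
      · exact (chgL_mono _ _ _ (CD.Ln.xi_b i)).trans le_sup_left
      · exact (hF i).trans le_sup_left
      · exact (hA'.bx.xi s hs hs1.le i).trans (sup_le_sup_right (hz.xi i) _)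
    have h2 : h (dg (c'.q 0) 1) (chgL Z e he (c.xi i) ⊔ dg (c'.q 0) s) ≤
        h (dg (c'.q 0) 1) (io (S := S.chg Z e he) (bV i) ⊔ (vd (F i) 1 ⊔ vd (gH c' H s) 1)) := h_anti hX
    have h3 := h_triangle (dg (c'.q 0) 1) (dg (c'.q 0) s) (chgL Z e he (c.xi i))
    rw [sup_comm (dg (c'.q 0) s)] at h3
    have h4 : h (dg (c'.q 0) s) (chgL Z e he (c.xi i)) ≤ s := (h_le_H _ _).trans (H_dg_le _ hs)
    have h5 := zoom_time hA hy hye hz i (hA.bx.xi y hy (by linarith) i)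
    linarith
  tbox := by
    intro W P P' hg
    have h1 := ((hA'.bx.fr s W P P' fun a => hg (Sum.inl a)).1 0)
    have h2 := hA'.bx.fq s hs hs1.le 0
    have hs1' : s ≤ 1 := by
      have h1 := hA.w1 z
      nlinarith
    have h3 := (P.qs_mem_Id hs1').mpr h2
    have h4 := (P'.qs_mem_Id hs1').mpr h2
    have h5 := Ideal.sub_mem _ h4 h3
    rw [map_sub, map_sub, h1] at h5
    rwa [sub_sub_sub_cancel_right] at h5
  conn := by
    intro l hB h2 h3
    have hys : w z * (y + e * s) < 1 := by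
      have h4 : e * (w z * s) < e * 1 := mul_lt_mul_of_pos_left hs1 he
      nlinarith
    have hys0 : 0 ≤ y + e * s := add_nonneg hy (mul_nonneg he.le hs)
    have hK : vd (gH c' H s) 1 = chgL Z e he (c.K (y + e * s)) := by
      rw [← K_zoom hA hA' hz hs hys.le]
      exact vd_gH hA'.bx hs hs1.le hH
    rw [hK] at h2 h3 ⊢
    refine conn_deep hA hy he hs hys hz.base ?_ (fun i => ?_) l hB h2 h3
    · exact sup_le (ho.trans (O_zoom_le hA hy hye hz)) (chgL_mono _ _ _ (K_le_O hA hys0 hys.le))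
    · rw [hbV i]
      refine sup_le (chgL_mono _ _ _ ((CD.Ln.xi_b i).trans le_sup_left)) (sup_le ((hF i).trans ?_) ?_)
      · exact chgL_mono _ _ _ le_sup_left
      · exact chgL_mono _ _ _ (hA.bx.xi _ hys0 hys.le i)

/-- edges from the transports of a type -/
theorem typ_edg {S : Sp} {β κ : Type} [Fintype β] [Fintype κ] {D : Dat S β κ} {t : QS S} {r₁ : ℝ} {B X : S.L}
    (T : Typ D t r₁ B X) (hq : D.qi ≤ B ⊔ dg t 1) {r : ℝ} (hr : r ≤ r₁) {W : Sp} (P P' : Pj W S)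
    (hV : Ag T.bV P P') (hf : ∀ a, P.qs (T.f a) = P'.qs (T.f a)) {d : ℕ} (hd : T.p.totalDegree ≤ d) :
    EdgD D r d P P' (P.map (B ⊔ dg t 1) ⊔ dg (P'.qs t) 1) := by
  have hBB : P.map B = P'.map B := by
    rw [← T.ioB]
    exact hV.map_io T.bdd
  refine edgD_of_tr hq hBB.ge (fun k => MvPolynomial.map P.qs (T.G k)) (MvPolynomial.map P.qs T.p)
    (fun k => map_PK P (T.Gk k)) (map_PK P T.pk) (fun k => Id_mono hr (T.hG W P P' hV hf k))
    (Id_mono hr (T.hp W P P' hV hf)) (fun l => Id_mono hr (T.hT W P P' hV hf l)) ?_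
  refine le_trans ?_ hd
  exact Finset.sup_mono (MvPolynomial.support_map_subset _ _)

/-- WALKS of every scale from the transports of all types -/
theorem walk_typ (hA : c.Ax w z ρ) (hA' : c'.Ax w z ρ) (hy : 0 ≤ y) (hye : w z * y + e ≤ 1)
    (hz : c.ZR w z y e he h1 Z c') {s : ℝ} (hs : 0 < s) (hs1 : w z * s < 1) {j : Fin N}
    {H : HH (S.chg Z e he) d N} (hH : ∀ j, H j ∈ PK ⊥) (D : Dat (S.chg Z e he) (Fin (d + 1)) (Low w j))
    (hDq : D.q = c'.q) (hDR : D.R = Rh w j c' H) (hDz : D.z = c'.R j) (hDwt : D.wt = wt d w j) (hDw : D.w = w j)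
    (hinf : D.inf = c'.O) (hLB : LB D.q D.R D.Pj D.wt (gH c' H s) s)
    (hLR : LR D.q D.R D.Pj D.z D.J (gH c' H s) (D.w * s)) {r₁ : ℝ} (hr : D.w * s ≤ r₁)
    (hT : ∀ i, Nonempty (Typ D (c'.q 0) r₁ (chgL Z e he (c.b i)) (chgL Z e he (c.xi i)))) :
    ∃ k : Walk D s, k.T ∧ k.RC := by
  classical
  haveI : Nonempty (Fin r) := ⟨⟨0, types_pos hA⟩⟩
  have T := fun i => Classical.choice (hT i)
  letI : ∀ i, Fintype (T i).φ := fun i => (T i).fin
  obtain ⟨o, hod⟩ : ∃ o : (Fin (d + 1) ⊕ Fin N) ⊕ (Low w j ⊕ Low w j) → QS (S.chg Z e he),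
      o = Sum.elim (Sum.elim c'.q c'.R) (Sum.elim D.R D.c) := ⟨_, rfl⟩
  have hJ : D.J ∈ PK c'.O := by
    rw [← hinf]
    exact D.Jinf
  have ho : vd o 1 ≤ c'.O := by
    rw [vd_le, hod]
    rintro ((a | l) | (l | l))
    · exact (dg_le_vd c'.q 1 a).trans le_sup_left
    · exact (dg_le_vd c'.R 1 l).trans le_sup_right
    · show dg (D.R l) 1 ≤ _
      rw [hDR]
      exact cR_le_O hH l.1
    · exact hJ _
  have hOo : c'.O ≤ vd o 1 := by
    refine sup_le ?_ ?_
    · rw [vd_le]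
      intro a
      have h2 := dg_le_vd o 1 (Sum.inl (Sum.inl a))
      rw [hod] at h2 ⊢
      exact h2
    · rw [vd_le]
      intro a
      have h2 := dg_le_vd o 1 (Sum.inl (Sum.inr a))
      rw [hod] at h2 ⊢
      exact h2
  have hoq : ∀ a, ∃ i, c'.q a = o i := fun a => ⟨Sum.inl (Sum.inl a), by rw [hod]; rfl⟩
  have hwt1 : ∀ a, D.wt a * s < 1 := by
    rw [hDwt]
    exact Pool.Agent.Helper79.LBR.wk_lt hA'.w1 hA'.wz hs.le hs1.le
  have hws : D.w * s ≤ 1 := by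
    rw [hDw]
    exact (mul_le_mul_of_nonneg_right (hA'.wz j) hs.le).trans hs1.le
  have hqi : ∀ i, D.qi ≤ chgL Z e he (c.b i) ⊔ dg (c'.q 0) 1 := by
    intro i
    show vd D.q 1 ≤ _
    rw [hDq]
    exact (CD.Ln.P_le hA'.ln i).trans (sup_le_sup_right (hz.b i) _)
  refine walk_of_WI (D := D) (s := s)
    (wiG hA hA' hy hye hz hs.le hs1 H hH (fun i => (T i).bV) (fun i => (T i).bdd) (fun i => (T i).ioB) o ho hoq
      (fun i => (T i).f) (fun i => (T i).fX)) hDq.symm hLB hs hwt1 hws hLR (by rw [hinf]; exact hOo) ?_ ?_ ?_ ?_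
    (d := univ.sup fun i => (T i).p.totalDegree) ?_
  · intro k
    have h2 : o (Sum.inr (Sum.inl k)) = D.R k := by
      rw [hod]
      rfl
    exact ⟨Sum.inr (Sum.inl k), h2⟩
  · have h2 : o (Sum.inl (Sum.inr j)) = D.z := by
      rw [hod, hDz]
      rfl
    exact ⟨Sum.inl (Sum.inr j), h2⟩
  · intro l
    have h2 : o (Sum.inr (Sum.inr l)) = D.c l := by
      rw [hod]
      rfl
    exact ⟨Sum.inr (Sum.inr l), h2⟩
  · have h2 : o (Sum.inl (Sum.inl 0)) = c'.q 0 := by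
      rw [hod]
      rfl
    exact ⟨Sum.inl (Sum.inl 0), h2⟩
  · intro i W P P' hV hF _
    refine ⟨W, Pj.id W, ?_⟩
    have h2 := typ_edg (T i) (hqi i) (r := D.w * s) hr P P' (fun k ω hω => hV k ω hω) hF
      (Finset.le_sup (f := fun i => (T i).p.totalDegree) (Finset.mem_univ i))
    have h3 := h2.pull (Pj.id W)
    rw [← (T i).ioB] at h3
    exact h3

end zoom

end

end Pool.Agent.Helper79.THA
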